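import Mathlib
import Pool.Agent.Lib.helper24.Succ

set_option autoImplicit false

open Set Filter Topology
open Cardinal hiding univ
open Pool.Agent.Lib.helper24.Succ

namespace Pool.Agent.H.MP_2f4f34_gt

abbrev V : Type := W ℵ₀
abbrev H : Type := (ℕ × V) →₀ ℤ

def U (n : ℕ) (L : Set V) : AddSubgroup H where
  carrier := {h | ∀ p, h p ≠ 0 → n ≤ p.1 ∧ p.2 ∈ L}
  zero_mem' := fun p h => (h rfl).elim
  add_mem' := by
    intro a b ha hb p hp
    by_cases h : a p = 0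
    · exact hb p (by simpa [h] using hp)
    · exact ha p h
  neg_mem' := fun ha p hp => ha p (by simpa using hp)

lemma U_mono {n m : ℕ} {L L' : Set V} (h : n ≤ m) (h' : L ⊆ L') {x : H} (hx : x ∈ U m L) :
    x ∈ U n L' := fun p hp => ⟨h.trans (hx p hp).1, h' (hx p hp).2⟩

lemma exists_bd (x : ℕ → H) : ∃ γ : V, ∀ k p, x k p ≠ 0 → p.2 < γ := by
  obtain ⟨γ, hγ⟩ := bdd_countable le_rfl (⋃ k, Prod.snd '' ((x k).support : Set (ℕ × V)))
    (countable_iUnion fun k => ((x k).support.finite_toSet.image _).countable)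
  exact ⟨γ, fun k p hp => hγ _ (mem_iUnion.2 ⟨k, p, by simpa using hp, rfl⟩)⟩

def A : Subgroup (H ≃ₗ[ℤ] H) where
  carrier := {a | ∀ n γ h, h ∈ U n (Iio γ) ↔ a h ∈ U n (Iio γ)}
  one_mem' := fun _ _ _ => Iff.rfl
  mul_mem' := fun ha hb n γ h => (hb n γ h).trans (ha n γ _)
  inv_mem' := by
    intro a ha n γ h
    rw [ha n γ (a⁻¹ h)]
    simp

@[ext] structure G : Type where
  h : H
  a : A

noncomputable instance : Group G where
  mul x y := ⟨x.h + x.a.1 y.h, x.a * y.a⟩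
  one := ⟨0, 1⟩
  inv x := ⟨-(x.a⁻¹.1 x.h), x.a⁻¹⟩
  mul_assoc x y z := G.ext (by
    show x.h + x.a.1 y.h + (x.a * y.a).1 z.h = x.h + x.a.1 (y.h + y.a.1 z.h)
    rw [map_add, add_assoc]; rfl) (mul_assoc _ _ _)
  one_mul x := G.ext (zero_add _) (one_mul _)
  mul_one x := G.ext (by
    show x.h + x.a.1 0 = x.h
    simp) (mul_one _)
  inv_mul_cancel x := G.ext (neg_add_cancel _) (inv_mul_cancel _)

lemma mul_h (x y : G) : (x * y).h = x.h + x.a.1 y.h := rfl
lemma mul_a (x y : G) : (x * y).a = x.a * y.a := rfl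
lemma inv_h (x : G) : x⁻¹.h = -(x.a⁻¹.1 x.h) := rfl
lemma inv_a (x : G) : x⁻¹.a = x.a⁻¹ := rfl
lemma one_h : (1 : G).h = 0 := rfl
lemma one_a : (1 : G).a = 1 := rfl

lemma conj_eq (x : G) (h : H) : x * ⟨h, 1⟩ * x⁻¹ = ⟨x.a.1 h, 1⟩ := by
  refine G.ext ?_ (by simp [mul_a, inv_a])
  simp [mul_h, mul_a, inv_h]

def Inv (L : Set V) : Prop := ∀ a : A, ∀ n h, h ∈ U n L → a.1 h ∈ U n L

lemma inv_Iio (γ : V) : Inv (Iio γ) := fun a n h hh => (a.2 n γ h).1 hh

lemma inv_univ : Inv univ := fun a n h hh => by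
  obtain ⟨γ, hγ⟩ := exists_bd fun _ => h
  exact U_mono le_rfl (subset_univ _) (inv_Iio γ a n h fun p hp => ⟨(hh p hp).1, hγ 0 p hp⟩)

def N (n : ℕ) (L : Set V) : Set G := {g | g.a = 1 ∧ g.h ∈ U n L}

@[instance_reducible] def B (L : Set V) (hL : Inv L) : GroupFilterBasis G where
  sets := range fun n => N n L
  nonempty := range_nonempty _
  inter_sets := by
    rintro _ _ ⟨n, rfl⟩ ⟨m, rfl⟩
    exact ⟨_, ⟨max n m, rfl⟩, fun g hg => ⟨⟨hg.1, U_mono (le_max_left _ _) subset_rfl hg.2⟩,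
      ⟨hg.1, U_mono (le_max_right _ _) subset_rfl hg.2⟩⟩⟩
  one' := by
    rintro _ ⟨n, rfl⟩
    exact ⟨rfl, (U n L).zero_mem⟩
  mul' := by
    rintro _ ⟨n, rfl⟩
    refine ⟨_, ⟨n, rfl⟩, ?_⟩
    rintro _ ⟨x, hx, y, hy, rfl⟩
    exact ⟨by simp only [mul_a, hx.1, hy.1, mul_one], (U n L).add_mem hx.2 (hL _ _ _ hy.2)⟩
  inv' := by
    rintro _ ⟨n, rfl⟩
    exact ⟨_, ⟨n, rfl⟩, fun x hx => ⟨by simp only [inv_a, hx.1, inv_one],
      (U n L).neg_mem (hL _ _ _ hx.2)⟩⟩
  conj' := by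
    rintro x _ ⟨n, rfl⟩
    refine ⟨_, ⟨n, rfl⟩, ?_⟩
    rintro ⟨h, a⟩ ⟨rfl, hh⟩
    rw [mem_preimage, conj_eq]
    exact ⟨rfl, hL _ _ _ hh⟩

lemma basis (L : Set V) (hL : Inv L) :
    HasBasis (@nhds G (B L hL).topology 1) (fun _ : ℕ => True) fun n => N n L :=
  (B L hL).nhds_one_hasBasis.to_hasBasis (by
    rintro _ ⟨n, rfl⟩
    exact ⟨n, trivial, subset_rfl⟩) fun n _ => ⟨_, ⟨n, rfl⟩, subset_rfl⟩

lemma t2 (L : Set V) (hL : Inv L) : @T2Space G (B L hL).topology := by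
  refine (@GroupFilterBasis.t2Space_iff_sInter_subset G _ (B L hL).topology (B L hL) rfl).2 ?_
  intro g hg
  refine G.ext ?_ (hg _ ⟨0, rfl⟩).1
  ext p
  by_contra h
  exact absurd ((hg _ ⟨p.1 + 1, rfl⟩).2 p h).1 (by omega)

noncomputable instance top : TopologicalSpace G := (B univ inv_univ).topology

instance : IsTopologicalGroup G := (B univ inv_univ).isTopologicalGroup
instance : T2Space G := t2 _ _

instance : FirstCountableTopology G := ⟨fun x => by
  haveI : (𝓝 (1 : G)).IsCountablyGenerated := (basis univ inv_univ).isCountablyGenerated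
  rw [← map_mul_left_nhds_one]
  infer_instance⟩

noncomputable def s (α : V) (k : ℕ) : G := ⟨Finsupp.single (k, α) 1, 1⟩

lemma s_mem (α : V) {k n : ℕ} (h : n ≤ k) : s α k ∈ N n univ := by
  refine ⟨rfl, fun p hp => ⟨?_, trivial⟩⟩
  have : p = (k, α) := (Finsupp.single_apply_ne_zero.1 hp).1
  rw [this]; exact h

lemma s_null (α : V) : Tendsto (s α) atTop (𝓝 1) :=
  (basis univ inv_univ).tendsto_right_iff.2 fun n _ => by
    filter_upwards [eventually_ge_atTop n] with k hk using s_mem α hk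

lemma exists_a (x : ℕ → H) (hx : ∀ k, x k ∈ U k univ) :
    ∃ (α : V) (a : A), ∀ k, a.1 (Finsupp.single (k, α) 1) = Finsupp.single (k, α) 1 + x k := by
  classical
  obtain ⟨α, hα⟩ := exists_bd x
  let T : H →ₗ[ℤ] H := Finsupp.linearCombination ℤ fun p => if p.2 = α then x p.1 else 0
  have hT : ∀ n γ h, h ∈ U n (Iio γ) → T h ∈ U n (Iio γ) ∧ T h ∈ U n (Iio α) := by
    intro n γ h hh
    simp only [T, Finsupp.linearCombination_apply, Finsupp.sum]
    constructor <;>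
    · refine sum_mem fun p hp => zsmul_mem ?_ _
      have := hh p (by simpa using hp)
      split_ifs with h1
      · refine fun q hq => ⟨this.1.trans (hx _ q hq).1, ?_⟩
        first | exact hα _ q hq | exact lt_trans (hα _ q hq) (h1 ▸ this.2)
      · exact zero_mem _
  have hT0 : ∀ h ∈ U 0 (Iio α), T h = 0 := by
    intro h hh
    simp only [T, Finsupp.linearCombination_apply, Finsupp.sum]
    refine Finset.sum_eq_zero fun p hp => ?_
    rw [if_neg (hh p (by simpa using hp)).2.ne, smul_zero]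
  have hTT : ∀ h, T (T h) = 0 := fun h => by
    obtain ⟨γ, hγ⟩ := exists_bd fun _ => h
    exact hT0 _ (hT 0 γ h fun p hp => ⟨Nat.zero_le _, hγ 0 p hp⟩).2
  let a : H ≃ₗ[ℤ] H := LinearEquiv.ofLinearMap (LinearMap.id + T) (LinearMap.id - T)
    (LinearMap.ext fun h => by simp [hTT]) (LinearMap.ext fun h => by simp [hTT])
  have ha : ∀ h, a h = h + T h := fun _ => rfl
  refine ⟨α, ⟨a, fun n γ h => ⟨fun hh => ?_, fun hh => ?_⟩⟩, fun k => ?_⟩
  · rw [ha]; exact add_mem hh (hT n γ h hh).1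
  · have : h = a h - T (a h) := by rw [ha, map_add, hTT]; simp
    rw [this]; exact sub_mem hh (hT n γ _ hh).1
  · have h1 : T (Finsupp.single (k, α) 1) = x k := by simp [T]
    rw [← h1]
    exact ha _

theorem least (σ : TopologicalSpace G) (hs : @IsTopologicalGroup G σ _)
    (h : ∀ α, Tendsto (s α) atTop (@nhds G σ 1)) : top ≤ σ := by
  have key : @nhds G top 1 ≤ @nhds G σ 1 := by
    intro W hW
    by_contra hcon
    have : ∀ n, ∃ x ∈ U n univ, (⟨x, 1⟩ : G) ∉ W := fun n => by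
      by_contra h'
      push Not at h'
      refine hcon ((basis univ inv_univ).mem_iff.2 ⟨n, trivial, ?_⟩)
      rintro ⟨x, a⟩ ⟨rfl, hx⟩
      exact h' x hx
    choose x hx hx' using this
    obtain ⟨α, a, ha⟩ := exists_a x hx
    let g : G := ⟨0, a⟩
    have h1 : Tendsto (fun k => g * s α k * g⁻¹ * (s α k)⁻¹) atTop (𝓝 1) := by
      have := (((h α).const_mul g).mul_const g⁻¹).mul (h α).inv
      simpa using this
    have h2 : ∀ k, g * s α k * g⁻¹ * (s α k)⁻¹ = ⟨x k, 1⟩ := fun k => by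
      rw [s, conj_eq, ha]
      refine G.ext ?_ (by simp [mul_a, inv_a])
      simp [mul_h, inv_h]
    simp only [h2] at h1
    obtain ⟨k, hk⟩ := (h1.eventually hW).exists
    exact hx' k hk
  have := @continuous_of_continuousAt_one G top _ _ G (G →* G) _ σ
    hs.toContinuousMul _ _ (MonoidHom.id G) key
  exact continuous_id_iff_le.1 this

theorem not_countable (S : Set (ℕ → G)) (hS : S.Countable)
    (h : ∀ u ∈ S, Tendsto u atTop (𝓝 1)) :
    ∃ σ : TopologicalSpace G, @IsTopologicalGroup G σ _ ∧ @T2Space G σ ∧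
      (∀ u ∈ S, Tendsto u atTop (@nhds G σ 1)) ∧ ¬ top ≤ σ := by
  choose γ hγ using fun u : S => exists_bd fun k => (u.1 k).h
  haveI := hS.to_subtype
  obtain ⟨β, hβ⟩ := bdd_range le_rfl (J := S) mk_le_aleph0 γ
  refine ⟨(B _ (inv_Iio β)).topology, (B _ (inv_Iio β)).isTopologicalGroup, t2 _ _,
    fun u hu => (basis _ _).tendsto_right_iff.2 fun n _ => ?_, fun hle => ?_⟩
  · filter_upwards [(basis univ inv_univ).tendsto_right_iff.1 (h u hu) n trivial] with k hk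
    exact ⟨hk.1, fun p hp => ⟨(hk.2 p hp).1, (hγ ⟨u, hu⟩ k p hp).trans (hβ _)⟩⟩
  · have h1 : N 0 (Iio β) ∈ 𝓝 (1 : G) :=
      nhds_mono hle ((basis _ (inv_Iio β)).mem_of_mem (i := 0) trivial)
    obtain ⟨k, hk⟩ := ((s_null β).eventually h1).exists
    exact lt_irrefl β (hk.2 (k, β) (by simp [s])).2

end Pool.Agent.H.MP_2f4f34_gt
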