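import Mathlib

set_option autoImplicit false

open Set Filter Topology Pointwise
open Cardinal hiding univ

namespace Pool.Agent.H.MP_2f4f34_gt.B

variable {G : Type} [Group G]

section KW
variable [t : TopologicalSpace G] [IsTopologicalGroup G] [T2Space G]

def KO (K : ℕ → Set G) (U : Set G) : Prop :=
  ∀ r, ∃ O, IsOpen O ∧ ∀ x ∈ K r, (x ∈ O ↔ x ∈ U)

lemma half (K : ℕ → Set G) (hc : ∀ r, IsCompact (K r)) (hm : Monotone K)
    (hmul : ∀ r, ∃ r', K r * K r ⊆ K r') {U : Set G} (hU : KO K U) (h1 : 1 ∈ U) (h0 : 1 ∈ K 0) :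
    ∃ V, KO K V ∧ 1 ∈ V ∧ V * V ⊆ U := by
  have step : ∀ (r : ℕ) (P : Set G), IsCompact P → P ⊆ K r → P * P ⊆ U →
      ∃ V, IsOpen V ∧ P ⊆ V ∧ (closure V ∩ K r) * (closure V ∩ K r) ⊆ U := by
    intro r P hP hPK hPU
    obtain ⟨r', hr'⟩ := hmul r
    obtain ⟨O, hO, hO'⟩ := hU r'
    obtain ⟨u, v, hu, hv, h1, h2, h3⟩ := generalized_tube_lemma hP hP
      (hO.preimage continuous_mul) (by
        rintro ⟨a, b⟩ ⟨ha, hb⟩
        exact (hO' _ (hr' (mul_mem_mul (hPK ha) (hPK hb)))).2 (hPU (mul_mem_mul ha hb)))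
    obtain ⟨V, hV, h4, h5⟩ := hP.exists_isOpen_closure_subset
      ((hu.inter hv).mem_nhdsSet.2 (subset_inter h1 h2))
    refine ⟨V, hV, h4, ?_⟩
    rintro _ ⟨a, ha, b, hb, rfl⟩
    exact (hO' _ (hr' (mul_mem_mul ha.2 hb.2))).1
      (h3 (mk_mem_prod (h5 ha.1).1 (h5 hb.1).2))
  choose! f hf1 hf2 hf3 using step
  let V : ℕ → Set G := fun n => Nat.rec (f 0 {1}) (fun r W => f (r + 1) (closure W ∩ K r)) n
  have hV0 : V 0 = f 0 {1} := rfl
  have hVs : ∀ r, V (r + 1) = f (r + 1) (closure (V r) ∩ K r) := fun _ => rfl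
  have h10 : ({1} : Set G) * {1} ⊆ U := by simpa using h1
  have hinv : ∀ r, (closure (V r) ∩ K r) * (closure (V r) ∩ K r) ⊆ U := by
    intro r
    induction r with
    | zero => exact hf3 0 {1} isCompact_singleton (singleton_subset_iff.2 h0) h10
    | succ r ih =>
      exact hf3 (r + 1) _ ((hc r).inter_left isClosed_closure)
        (inter_subset_right.trans (hm (Nat.le_succ r))) ih
  have hopen : ∀ r, IsOpen (V r) := by
    rintro (_ | r)
    · exact hf1 0 {1} isCompact_singleton (singleton_subset_iff.2 h0) h10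
    · exact hf1 (r + 1) _ ((hc r).inter_left isClosed_closure)
        (inter_subset_right.trans (hm (Nat.le_succ r))) (hinv r)
  have hmono : Monotone fun r => V r ∩ K r := monotone_nat_of_le_succ fun r x hx =>
    ⟨hf2 (r + 1) _ ((hc r).inter_left isClosed_closure)
      (inter_subset_right.trans (hm (Nat.le_succ r))) (hinv r) ⟨subset_closure hx.1, hx.2⟩,
      hm (Nat.le_succ r) hx.2⟩
  refine ⟨⋃ r, V r ∩ K r, fun m => ⟨⋃ r ≥ m, V r, isOpen_biUnion fun r _ => hopen r,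
    fun x hx => ⟨fun h => ?_, fun h => ?_⟩⟩, mem_iUnion.2 ⟨0, ?_, h0⟩, ?_⟩
  · obtain ⟨r, hr, h⟩ := mem_iUnion₂.1 h
    exact mem_iUnion.2 ⟨r, h, hm hr hx⟩
  · obtain ⟨r, h⟩ := mem_iUnion.1 h
    exact mem_iUnion₂.2 ⟨max r m, le_max_right _ _, (hmono (le_max_left r m) h).1⟩
  · exact hf2 0 {1} isCompact_singleton (singleton_subset_iff.2 h0) h10 rfl
  · rintro _ ⟨a, ha, b, hb, rfl⟩
    obtain ⟨r, ha⟩ := mem_iUnion.1 ha
    obtain ⟨s, hb⟩ := mem_iUnion.1 hb
    have ha' := hmono (le_max_left r s) ha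
    have hb' := hmono (le_max_right r s) hb
    exact hinv _ (mul_mem_mul ⟨subset_closure ha'.1, ha'.2⟩ ⟨subset_closure hb'.1, hb'.2⟩)

lemma kw (K : ℕ → Set G) (hc : ∀ r, IsCompact (K r)) (hm : Monotone K)
    (hmul : ∀ r, ∃ r', K r * K r ⊆ K r') (h0 : 1 ∈ K 0) (hinv : ∀ r, ∀ x ∈ K r, x⁻¹ ∈ K r)
    (hcov : ∀ x, ∃ r, x ∈ K r) :
    ∃ σ : TopologicalSpace G, @IsTopologicalGroup G σ _ ∧
      (∀ v : ℕ → G, Tendsto v atTop (@nhds G t 1) → (∀ᶠ n in atTop, v n ∈ K 0) →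
        Tendsto v atTop (@nhds G σ 1)) ∧
      ∀ y : ℕ → G, (∀ k, y k ≠ 1) → (∀ r, ∀ᶠ k in atTop, y k ∉ K r) →
        ¬ Tendsto y atTop (@nhds G σ 1) := by
  let B : GroupFilterBasis G :=
    { sets := {U | KO K U ∧ 1 ∈ U}
      nonempty := ⟨univ, fun r => ⟨univ, isOpen_univ, fun _ _ => Iff.rfl⟩, trivial⟩
      inter_sets := by
        rintro U V ⟨hU, h1⟩ ⟨hV, h2⟩
        refine ⟨U ∩ V, ⟨fun r => ?_, h1, h2⟩, subset_rfl⟩
        obtain ⟨O, hO, hO'⟩ := hU r
        obtain ⟨P, hP, hP'⟩ := hV r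
        exact ⟨O ∩ P, hO.inter hP, fun x hx => and_congr (hO' x hx) (hP' x hx)⟩
      one' := fun h => h.2
      mul' := by
        rintro U ⟨hU, h1⟩
        obtain ⟨V, h2, h3, h4⟩ := half K hc hm hmul hU h1 h0
        exact ⟨V, ⟨h2, h3⟩, h4⟩
      inv' := by
        rintro U ⟨hU, h1⟩
        refine ⟨_, ⟨fun r => ?_, by simpa using h1⟩, subset_rfl⟩
        obtain ⟨O, hO, hO'⟩ := hU r
        exact ⟨_, hO.preimage continuous_inv, fun x hx => hO' _ (hinv r x hx)⟩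
      conj' := by
        rintro g U ⟨hU, h1⟩
        refine ⟨_, ⟨fun r => ?_, by simpa using h1⟩, subset_rfl⟩
        obtain ⟨s, hs⟩ := hcov g
        obtain ⟨r1, hr1⟩ := hmul (max r s)
        obtain ⟨r2, hr2⟩ := hmul (max r1 s)
        obtain ⟨O, hO, hO'⟩ := hU r2
        refine ⟨_, hO.preimage (IsTopologicalGroup.continuous_conj g), fun x hx => hO' _ ?_⟩
        exact hr2 (mul_mem_mul (hm (le_max_left _ _) (hr1 (mul_mem_mul (hm (le_max_right _ _) hs)
          (hm (le_max_left _ _) hx)))) (hm (le_max_right _ _) (hinv _ _ hs))) }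
  refine ⟨B.topology, B.isTopologicalGroup, fun v hv hv' => ?_, fun y hy hy' h => ?_⟩
  · refine B.nhds_one_hasBasis.tendsto_right_iff.2 ?_
    rintro U ⟨hU, h1⟩
    obtain ⟨O, hO, hO'⟩ := hU 0
    filter_upwards [hv', hv (hO.mem_nhds ((hO' 1 h0).2 h1))] with n h2 h3
    exact (hO' _ h2).1 h3
  · have : (range y)ᶜ ∈ B := by
      refine ⟨fun r => ?_, fun ⟨k, hk⟩ => hy k hk⟩
      obtain ⟨N, hN⟩ := eventually_atTop.1 (hy' r)
      refine ⟨(y '' Iio N)ᶜ, ((finite_Iio N).image y).isClosed.isOpen_compl, fun x hx => ?_⟩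
      refine not_congr ⟨fun ⟨k, _, hk⟩ => ⟨k, hk⟩, ?_⟩
      rintro ⟨k, rfl⟩
      exact ⟨k, not_le.1 fun h => hN k h hx, rfl⟩
    obtain ⟨k, hk⟩ := (h.eventually (B.mem_nhds_one this)).exists
    exact hk ⟨k, rfl⟩

lemma dom [Countable G] [(𝓝 (1 : G)).IsCountablyGenerated] (S : Set (ℕ → G))
    (hS : ∀ u ∈ S, Tendsto u atTop (𝓝 1))
    (hb : ∀ D : Set (ℕ → ℕ), #D ≤ #S → ∃ g : ℕ → ℕ, ∀ f ∈ D, ∀ᶠ n in atTop, f n ≤ g n) :
    ∃ C : Set G, IsCompact C ∧ 1 ∈ C ∧ ∀ u ∈ S, ∀ᶠ n in atTop, u n ∈ C := by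
  classical
  obtain ⟨U, hU⟩ := (𝓝 (1 : G)).exists_antitone_basis
  obtain ⟨e, he⟩ := exists_surjective_nat G
  choose idx hidx using he
  have hN : ∀ u : S, ∀ m, ∃ N, ∀ n ≥ N, u.1 n ∈ U m := fun u m =>
    eventually_atTop.1 ((hS _ u.2).eventually (hU.1.mem_of_mem trivial))
  choose N hN using hN
  obtain ⟨g, hg⟩ := hb (range fun (u : S) (m : ℕ) => (Finset.range (N u m)).sup fun n => idx (u.1 n))
    mk_range_le
  let w : ℕ → G := fun i => if ∀ m, e i ∉ U m → (∀ m' < m, e i ∈ U m') → i ≤ g m then e i else 1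
  have hw : Tendsto w atTop (𝓝 1) := by
    refine hU.1.tendsto_right_iff.2 fun n _ => ?_
    filter_upwards [eventually_gt_atTop ((Finset.range (n + 1)).sup g)] with i hi
    simp only [w]
    split_ifs with h
    · by_contra h'
      have h1 : ∃ m, e i ∉ U m := ⟨n, h'⟩
      have h2 := h _ (Nat.find_spec h1) fun m' hm' => not_not.1 (Nat.find_min h1 hm')
      exact absurd (h2.trans (Finset.le_sup (f := g)
        (Finset.mem_range.2 (Nat.lt_succ_of_le (Nat.find_min' h1 h'))))) (not_le.2 hi)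
    · exact mem_of_mem_nhds (hU.1.mem_of_mem trivial)
  refine ⟨_, hw.isCompact_insert_range, mem_insert _ _, fun u hu => ?_⟩
  obtain ⟨M, hM⟩ := eventually_atTop.1 (hg _ ⟨⟨u, hu⟩, rfl⟩)
  filter_upwards [eventually_ge_atTop (N ⟨u, hu⟩ M)] with n hn
  refine Or.inr ⟨idx (u n), ?_⟩
  simp only [w, hidx]
  rw [if_pos]
  intro m hm _
  have h1 : M ≤ m := by
    by_contra h
    exact hm (hU.antitone (not_le.1 h).le (hN ⟨u, hu⟩ M n hn))
  refine le_trans ?_ (hM m h1)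
  refine Finset.le_sup (f := fun n => idx (u n)) (Finset.mem_range.2 ?_)
  by_contra h
  exact hm (hN ⟨u, hu⟩ m n (not_lt.1 h))

lemma exists_K [Countable G] (C : Set G) (hC : IsCompact C) (h1 : 1 ∈ C) :
    ∃ K : ℕ → Set G, (∀ r, IsCompact (K r)) ∧ Monotone K ∧ (∀ r, ∃ r', K r * K r ⊆ K r') ∧
      C ⊆ K 0 ∧ (∀ r, ∀ x ∈ K r, x⁻¹ ∈ K r) ∧ ∀ x, ∃ r, x ∈ K r := by
  obtain ⟨e, he⟩ := exists_surjective_nat G
  let K : ℕ → Set G := fun n => Nat.rec (C ∪ C⁻¹) (fun r L => L * L ∪ {e r, (e r)⁻¹}) n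
  have hs : ∀ r, K (r + 1) = K r * K r ∪ {e r, (e r)⁻¹} := fun _ => rfl
  have hone : ∀ r, 1 ∈ K r := by
    intro r
    induction r with
    | zero => exact Or.inl h1
    | succ r ih => exact Or.inl ⟨1, ih, 1, ih, mul_one _⟩
  refine ⟨K, fun r => ?_, monotone_nat_of_le_succ fun r x hx => Or.inl ⟨x, hx, 1, hone r, mul_one _⟩,
    fun r => ⟨r + 1, subset_union_left⟩, subset_union_left, fun r => ?_, fun x => ?_⟩
  · induction r with
    | zero => exact hC.union hC.inv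
    | succ r ih => exact (ih.mul ih).union (toFinite _).isCompact
  · induction r with
    | zero =>
      rintro x (hx | hx)
      · exact Or.inr (by simpa using hx)
      · exact Or.inl hx
    | succ r ih =>
      rintro x (⟨a, ha, b, hb, rfl⟩ | rfl | rfl)
      · exact Or.inl ⟨b⁻¹, ih b hb, a⁻¹, ih a ha, (mul_inv_rev a b).symm⟩
      · exact Or.inr (Or.inr rfl)
      · exact Or.inr (Or.inl (inv_inv _))
  · obtain ⟨r, rfl⟩ := he x
    exact ⟨r + 1, Or.inr (Or.inl rfl)⟩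

lemma isolated [Countable G] {K U : Set G} (hK : IsCompact K) (hU : U ⊆ K) (hne : U.Nonempty) :
    ∃ O x, IsOpen O ∧ O ∩ U = {x} := by
  have hc : IsCompact (closure U) := hK.of_isClosed_subset isClosed_closure
    (closure_minimal hU hK.isClosed)
  haveI : CompactSpace (closure U) := isCompact_iff_compactSpace.1 hc
  haveI : Nonempty (closure U) := hne.closure.to_subtype
  obtain ⟨x, hx⟩ := nonempty_interior_of_iUnion_of_closed
    (fun x : closure U => (isClosed_singleton : IsClosed {x})) (iUnion_of_singleton _)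
  have h1 : IsOpen ({x} : Set (closure U)) := by
    rw [← interior_eq_iff_isOpen]
    refine Subset.antisymm interior_subset ?_
    obtain ⟨y, hy⟩ := hx
    have : y = x := mem_singleton_iff.1 (interior_subset hy)
    subst this
    exact singleton_subset_iff.2 hy
  obtain ⟨O, hO, hO'⟩ := isOpen_induced_iff.1 h1
  have hxO : x.1 ∈ O := by
    have : x ∈ Subtype.val ⁻¹' O := by rw [hO']; rfl
    exact this
  have h2 : ∀ y ∈ O ∩ U, y = x.1 := fun y hy => by
    have : (⟨y, subset_closure hy.2⟩ : closure U) ∈ Subtype.val ⁻¹' O := hy.1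
    rw [hO'] at this
    exact congrArg Subtype.val this
  obtain ⟨y, hy⟩ := mem_closure_iff.1 x.2 O hO hxO
  exact ⟨O, x.1, hO, eq_singleton_iff_unique_mem.2 ⟨h2 y hy ▸ hy, h2⟩⟩

lemma coarse [Countable G] : ∃ t' : TopologicalSpace G, t ≤ t' ∧
    @IsTopologicalGroup G t' _ ∧ @T2Space G t' ∧ (@nhds G t' 1).IsCountablyGenerated := by
  obtain ⟨e, he⟩ := exists_surjective_nat G
  have step : ∀ (m : ℕ) (O : Set G), O ∈ 𝓝 (1 : G) → ∃ O' ∈ 𝓝 (1 : G), O' * O' ⊆ O ∧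
      (∀ x ∈ O', x⁻¹ ∈ O) ∧ (∀ i ≤ m, ∀ x ∈ O', e i * x * (e i)⁻¹ ∈ O) ∧
      (e m ≠ 1 → e m ∉ O') := by
    intro m O hO
    obtain ⟨V, hV, hV'⟩ := exists_nhds_one_split hO
    have h1 : ∀ᶠ x in 𝓝 (1 : G), x⁻¹ ∈ O := by
      have := continuous_inv.tendsto (1 : G)
      rw [inv_one] at this
      exact this.eventually hO
    have h2 : ∀ᶠ x in 𝓝 (1 : G), ∀ i ∈ Iic m, e i * x * (e i)⁻¹ ∈ O := by
      refine (eventually_all_finite (finite_Iic m)).2 fun i _ => ?_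
      have := (IsTopologicalGroup.continuous_conj (e i)).tendsto 1
      simp only [mul_one, mul_inv_cancel] at this
      exact this.eventually hO
    have h3 : ∀ᶠ x in 𝓝 (1 : G), e m ≠ 1 → x ≠ e m := by
      by_cases h : e m = 1
      · exact Eventually.of_forall fun _ h' => (h' h).elim
      · filter_upwards [isOpen_compl_singleton.mem_nhds (Ne.symm h)] with x hx _ using hx
    refine ⟨_, inter_mem hV (h1.and (h2.and h3)), ?_, fun x hx => hx.2.1,
      fun i hi x hx => hx.2.2.1 i hi, fun h hx => hx.2.2.2 h rfl⟩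
    rintro _ ⟨a, ha, b, hb, rfl⟩
    exact hV' a ha.1 b hb.1
  choose! f hf1 hf2 hf3 hf4 hf5 using step
  let O : ℕ → Set G := fun n => Nat.rec univ f n
  have hO : ∀ n, O n ∈ 𝓝 (1 : G) := by
    intro n
    induction n with
    | zero => exact univ_mem
    | succ n ih => exact hf1 n _ ih
  have hanti : Antitone O := antitone_nat_of_succ_le fun n x hx =>
    hf2 n _ (hO n) ⟨x, hx, 1, mem_of_mem_nhds (hO (n + 1)), mul_one x⟩
  let B : GroupFilterBasis G :=
    { sets := range O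
      nonempty := range_nonempty _
      inter_sets := by
        rintro _ _ ⟨n, rfl⟩ ⟨m, rfl⟩
        exact ⟨_, ⟨max n m, rfl⟩, subset_inter (hanti (le_max_left _ _)) (hanti (le_max_right _ _))⟩
      one' := by
        rintro _ ⟨n, rfl⟩
        exact mem_of_mem_nhds (hO n)
      mul' := by
        rintro _ ⟨n, rfl⟩
        exact ⟨_, ⟨n + 1, rfl⟩, hf2 n _ (hO n)⟩
      inv' := by
        rintro _ ⟨n, rfl⟩
        exact ⟨_, ⟨n + 1, rfl⟩, hf3 n _ (hO n)⟩
      conj' := by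
        rintro g _ ⟨n, rfl⟩
        obtain ⟨i, rfl⟩ := he g
        exact ⟨_, ⟨max n i + 1, rfl⟩, fun x hx => hanti (le_max_left n i)
          (hf4 _ _ (hO _) i (le_max_right _ _) x hx)⟩ }
  have hb : HasBasis (@nhds G B.topology 1) (fun _ : ℕ => True) O :=
    B.nhds_one_hasBasis.to_hasBasis (by
      rintro _ ⟨n, rfl⟩
      exact ⟨n, trivial, subset_rfl⟩) fun n _ => ⟨_, ⟨n, rfl⟩, subset_rfl⟩
  refine ⟨B.topology, ?_, B.isTopologicalGroup, ?_, hb.isCountablyGenerated⟩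
  · have := @continuous_of_continuousAt_one G t _ _ G (G →* G) _ B.topology
      B.isTopologicalGroup.toContinuousMul _ _ (MonoidHom.id G)
      (hb.ge_iff.2 fun n _ => hO n)
    exact continuous_id_iff_le.1 this
  · refine (@GroupFilterBasis.t2Space_iff_sInter_subset G _ B.topology B rfl).2 fun x hx => ?_
    obtain ⟨i, rfl⟩ := he x
    by_contra h
    exact hf5 i _ (hO i) h (hx _ ⟨i + 1, rfl⟩)
end KW

theorem main [Countable G] (t : TopologicalSpace G) [IsTopologicalGroup G] [T2Space G]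
    [FrechetUrysohnSpace G] (hnd : ¬ DiscreteTopology G) (S : Set (ℕ → G))
    (hS : ∀ u ∈ S, Tendsto u atTop (𝓝 1))
    (hmin : ∀ s : TopologicalSpace G, @IsTopologicalGroup G s _ → @T2Space G s →
      (∀ u ∈ S, Tendsto u atTop (@nhds G s 1)) → t ≤ s)
    (hb : ∀ D : Set (ℕ → ℕ), #D ≤ #S → ∃ g : ℕ → ℕ, ∀ f ∈ D, ∀ᶠ n in atTop, f n ≤ g n) :
    False := by
  have hiso : ∀ x : G, ¬ IsOpen ({x} : Set G) := fun x hx =>
    hnd (discreteTopology_of_isOpen_singleton_one (by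
      have := hx.preimage (continuous_const_mul x)
      convert this using 1
      ext y; simp))
  obtain ⟨u, hu, hu'⟩ : ∃ u : ℕ → G, (∀ n, u n ∈ ({1}ᶜ : Set G)) ∧ Tendsto u atTop (𝓝 1) := by
    refine mem_closure_iff_seq_limit.1 ?_
    by_contra h
    refine hiso 1 ?_
    rw [closure_compl, mem_compl_iff, not_not] at h
    exact isOpen_singleton_iff_nhds_eq_pure _ |>.2 (le_antisymm
      (le_pure_iff.2 (mem_interior_iff_mem_nhds.1 h)) (pure_le_nhds _))
  choose P hP Q hQ hPQ' using fun n => Filter.disjoint_iff.1 (disjoint_nhds_nhds.2 (hu n))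
  have hPQ : ∀ n, P n ∈ 𝓝 (u n) ∧ Q n ∈ 𝓝 1 ∧ Disjoint (P n) (Q n) :=
    fun n => ⟨hP n, hQ n, hPQ' n⟩
  have key : ∃ (K : ℕ → Set G), Monotone K ∧
      (∀ r, ∀ U ⊆ K r, U.Nonempty → ∃ O x, IsOpen O ∧ O ∩ U = {x}) ∧
      ∀ y : ℕ → G, (∀ k, y k ≠ 1) → (∀ r, ∀ᶠ k in atTop, y k ∉ K r) →
        ¬ Tendsto y atTop (𝓝 1) := by
    have hmin' : ∀ s : TopologicalSpace G, @IsTopologicalGroup G s _ →
        (∀ u ∈ S, Tendsto u atTop (@nhds G s 1)) → t ≤ s := by
      have i1 : @IsTopologicalGroup G t _ := inferInstance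
      have i2 : @T2Space G t := inferInstance
      intro σ s1 s2
      refine (hmin (t ⊓ σ) (topologicalGroup_inf i1 s1) (t2Space_antitone inf_le_left i2)
        fun v hv => ?_).trans inf_le_right
      rw [@nhds_inf G t σ]
      exact tendsto_inf.2 ⟨hS v hv, s2 v hv⟩
    obtain ⟨t', hle, h1, h2, h3⟩ := coarse (G := G)
    have hS' : ∀ v ∈ S, Tendsto v atTop (@nhds G t' 1) := fun v hv =>
      (hS v hv).mono_right (nhds_mono hle)
    obtain ⟨C, hC, h1C, hCS⟩ := @dom G _ t' h1 h2 _ h3 S hS' hb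
    obtain ⟨K, k1, k2, k3, k4, k5, k6⟩ := @exists_K G _ t' h1 h2 _ C hC h1C
    obtain ⟨σ, s1, s2, s3⟩ := @kw G _ t' h1 h2 K k1 k2 k3 (k4 h1C) k5 k6
    have hσ := hmin' σ s1 fun v hv => s2 v (hS' v hv) ((hCS v hv).mono fun n hn => k4 hn)
    refine ⟨K, k2, fun r U hU hne => ?_, fun y a b c => s3 y a b (c.mono_right (nhds_mono hσ))⟩
    obtain ⟨O, x, hO, h⟩ := @isolated G _ t' h1 h2 _ _ _ (k1 r) hU hne
    exact ⟨O, x, hle _ hO, h⟩
  obtain ⟨K, hK, hK', s3⟩ := key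
  have hcl : (1 : G) ∈ closure (⋃ n, P n \ K n) := by
    refine isClosed_closure.mem_of_tendsto hu' (Eventually.of_forall fun n => ?_)
    refine closure_mono (subset_iUnion (fun n => P n \ K n) n) ?_
    refine mem_closure_iff_nhds.2 fun T hT => ?_
    by_contra h
    obtain ⟨O, x, hO, h'⟩ := hK' n (interior (T ∩ P n)) (fun y hy => by
      have := interior_subset hy
      by_contra h2
      exact h ⟨y, this.1, this.2, h2⟩)
      ⟨u n, mem_interior_iff_mem_nhds.2 (inter_mem hT (hPQ n).1)⟩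
    exact hiso x (h' ▸ hO.inter isOpen_interior)
  obtain ⟨y, hy, hy'⟩ := mem_closure_iff_seq_limit.1 hcl
  choose n hn using fun k => mem_iUnion.1 (hy k)
  refine s3 y (fun k h => ?_) (fun r => ?_) hy'
  · exact disjoint_left.1 (hPQ (n k)).2.2 (hn k).1 (h ▸ mem_of_mem_nhds (hPQ _).2.1)
  · have : ∀ᶠ k in atTop, ∀ i ∈ Iio r, y k ∈ Q i :=
      (eventually_all_finite (finite_Iio r)).2 fun i _ => hy'.eventually (hPQ i).2.1
    filter_upwards [this] with k hk h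
    by_cases h1 : n k < r
    · exact disjoint_left.1 (hPQ (n k)).2.2 (hn k).1 (hk _ h1)
    · exact (hn k).2 (hK (not_lt.1 h1) h)

end Pool.Agent.H.MP_2f4f34_gt.B
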